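import Mathlib
import Pool.Agent.Lib.Pa5f8b0.Main

set_option autoImplicit false

namespace Pool.Agent.Results.MP_a5f8b0_al.OutIsC2

/-- The residue class `r(m) = {r + k m : k ∈ ℤ}`. -/
def rc (r m : ℤ) : Set ℤ := {n | ∃ k : ℤ, n = r + k * m}

/-- `σ` is the class transposition of `r₁(m₁)` and `r₂(m₂)`: it swaps `r₁ + k m₁` with
`r₂ + k m₂` for every `k` and fixes every integer outside the two classes. -/
def IsClassTransposition (r₁ m₁ r₂ m₂ : ℤ) (σ : Equiv.Perm ℤ) : Prop :=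
  (∀ k : ℤ, σ (r₁ + k * m₁) = r₂ + k * m₂ ∧ σ (r₂ + k * m₂) = r₁ + k * m₁) ∧
    ∀ n : ℤ, n ∉ rc r₁ m₁ → n ∉ rc r₂ m₂ → σ n = n

/-- `CT(ℤ)`: the subgroup of `Sym(ℤ)` generated by all class transpositions of two disjoint
residue classes `r₁(m₁)`, `r₂(m₂)`, `0 ≤ rᵢ < mᵢ`. -/
def CT : Subgroup (Equiv.Perm ℤ) :=
  Subgroup.closure {σ | ∃ r₁ m₁ r₂ m₂ : ℤ, 0 ≤ r₁ ∧ r₁ < m₁ ∧ 0 ≤ r₂ ∧ r₂ < m₂ ∧
    Disjoint (rc r₁ m₁) (rc r₂ m₂) ∧ IsClassTransposition r₁ m₁ r₂ m₂ σ}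

/-- The reflection `ν(n) = -n - 1`. -/
def nu : Equiv.Perm ℤ where
  toFun n := -n - 1
  invFun n := -n - 1
  left_inv n := by ring
  right_inv n := by ring

/-- The group of inner automorphisms of `CT(ℤ)`. -/
def Inn : Subgroup (MulAut CT) := (MulAut.conj : CT →* MulAut CT).range

instance Inn_normal : Inn.Normal := by
  constructor
  rintro _ ⟨g, rfl⟩ φ
  refine ⟨φ g, ?_⟩
  ext x
  simp [MulAut.conj_apply]

theorem mem_rc_iff {r m n : ℤ} (h0 : 0 ≤ r) (h1 : r < m) : n ∈ rc r m ↔ n % m = r := by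
  constructor
  · rintro ⟨k, rfl⟩
    rw [Int.add_mul_emod_self_right, Int.emod_eq_of_lt h0 h1]
  · intro h
    refine ⟨n / m, ?_⟩
    have := Int.emod_add_mul_ediv n m
    rw [h] at this
    linarith [mul_comm m (n / m)]

theorem CT_eq : CT = Pool.Agent.Lib.Pa5f8b0.HH := by
  rw [← Pool.Agent.Lib.Pa5f8b0.CT_eq_HH]
  unfold CT Pool.Agent.Lib.Pa5f8b0.CT Pool.Agent.Lib.Pa5f8b0.CTset
  congr 1
  ext σ
  constructor
  · rintro ⟨r₁, m₁, r₂, m₂, h1, h1', h2, h2', hd, hs, hf⟩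
    refine ⟨r₁, m₁, r₂, m₂, h1, h1', h2, h2', ?_, hs, ?_⟩
    · rintro ⟨n, hn1, hn2⟩
      exact Set.disjoint_left.1 hd ((mem_rc_iff h1 h1').2 hn1) ((mem_rc_iff h2 h2').2 hn2)
    · intro n hn1 hn2
      exact hf n (fun h => hn1 ((mem_rc_iff h1 h1').1 h)) (fun h => hn2 ((mem_rc_iff h2 h2').1 h))
  · rintro ⟨r₁, m₁, r₂, m₂, h1, h1', h2, h2', hd, hs, hf⟩
    refine ⟨r₁, m₁, r₂, m₂, h1, h1', h2, h2', ?_, hs, ?_⟩
    · refine Set.disjoint_left.2 fun n hn1 hn2 => hd ⟨n, (mem_rc_iff h1 h1').1 hn1,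
        (mem_rc_iff h2 h2').1 hn2⟩
    · intro n hn1 hn2
      exact hf n (fun h => hn1 ((mem_rc_iff h1 h1').2 h)) (fun h => hn2 ((mem_rc_iff h2 h2').2 h))

theorem nu_eq : nu = Pool.Agent.Lib.Pa5f8b0.nu := by
  ext n
  rw [Pool.Agent.Lib.Pa5f8b0.nu_apply]
  rfl

theorem nu_mul_nu : nu * nu = 1 := by
  ext n
  show -(-n - 1) - 1 = n
  ring

theorem nu_inv : nu⁻¹ = nu := inv_eq_of_mul_eq_one_left nu_mul_nu

theorem nu_conj_mem {g : Equiv.Perm ℤ} (hg : g ∈ CT) : nu * g * nu ∈ CT := by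
  rw [CT_eq] at hg ⊢
  rw [nu_eq]
  exact Pool.Agent.Lib.Pa5f8b0.nu_conj_mem hg

theorem main_auto (φ : MulAut CT) : ∃ h ∈ CT,
    (∀ g : CT, ((φ g : CT) : Equiv.Perm ℤ) = h * (g : Equiv.Perm ℤ) * h⁻¹) ∨
    (∀ g : CT, ((φ g : CT) : Equiv.Perm ℤ) = h * nu * (g : Equiv.Perm ℤ) * nu⁻¹ * h⁻¹) := by
  have key : ∀ G : Subgroup (Equiv.Perm ℤ), G = Pool.Agent.Lib.Pa5f8b0.HH →
      ∀ φ : G ≃* G, ∃ h ∈ G,
      (∀ g : G, ((φ g : G) : Equiv.Perm ℤ) = h * (g : Equiv.Perm ℤ) * h⁻¹) ∨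
      (∀ g : G, ((φ g : G) : Equiv.Perm ℤ) = h * nu * (g : Equiv.Perm ℤ) * nu⁻¹ * h⁻¹) := by
    intro G hG φ
    subst hG
    rw [nu_eq]
    exact Pool.Agent.Lib.Pa5f8b0.main_auto φ
  exact key CT CT_eq φ

theorem main_not : ¬ ∃ h ∈ CT, ∀ g ∈ CT, nu * g * nu⁻¹ = h * g * h⁻¹ := by
  rw [CT_eq, nu_eq]
  exact Pool.Agent.Lib.Pa5f8b0.main_not

theorem two_elements : ∀ x : Multiplicative (ZMod 2), x ≠ 1 → x = Multiplicative.ofAdd 1 := by
  decide

/-- `Out(CT(ℤ))` is cyclic of order two, generated by the class of `σ ↦ ν⁻¹ σ ν`. -/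
theorem result :
    ∃ α : MulAut CT,
      (∀ g : CT, ((α g : CT) : Equiv.Perm ℤ) = nu⁻¹ * (g : Equiv.Perm ℤ) * nu) ∧
      ∃ e : (MulAut CT ⧸ Inn) ≃* Multiplicative (ZMod 2),
        e (QuotientGroup.mk α) = Multiplicative.ofAdd 1 := by
  let α : MulAut CT :=
    { toFun := fun g => ⟨nu * g * nu, nu_conj_mem g.2⟩
      invFun := fun g => ⟨nu * g * nu, nu_conj_mem g.2⟩
      left_inv := fun g => Subtype.ext (by
        show nu * (nu * (g : Equiv.Perm ℤ) * nu) * nu = g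
        calc nu * (nu * (g : Equiv.Perm ℤ) * nu) * nu = (nu * nu) * g * (nu * nu) := by group
          _ = g := by rw [nu_mul_nu]; group)
      right_inv := fun g => Subtype.ext (by
        show nu * (nu * (g : Equiv.Perm ℤ) * nu) * nu = g
        calc nu * (nu * (g : Equiv.Perm ℤ) * nu) * nu = (nu * nu) * g * (nu * nu) := by group
          _ = g := by rw [nu_mul_nu]; group)
      map_mul' := fun a b => Subtype.ext (by
        show nu * ((a : Equiv.Perm ℤ) * b) * nu = (nu * a * nu) * (nu * b * nu)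
        calc nu * ((a : Equiv.Perm ℤ) * b) * nu = nu * a * 1 * b * nu := by group
          _ = nu * a * (nu * nu) * b * nu := by rw [nu_mul_nu]
          _ = (nu * a * nu) * (nu * b * nu) := by group) }
  have hα : ∀ g : CT, ((α g : CT) : Equiv.Perm ℤ) = nu * (g : Equiv.Perm ℤ) * nu := fun g => rfl
  refine ⟨α, fun g => by rw [hα, nu_inv], ?_⟩
  have hαn : α ∉ Inn := by
    rintro ⟨h, hh⟩
    refine main_not ⟨h, h.2, fun g hg => ?_⟩
    have h1 : ((α ⟨g, hg⟩ : CT) : Equiv.Perm ℤ) =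
        (h : Equiv.Perm ℤ) * g * (h : Equiv.Perm ℤ)⁻¹ := by
      rw [← hh]
      simp [MulAut.conj_apply]
    rw [← h1, hα, nu_inv]
  have hαα : α * α = 1 := by
    ext g : 1
    apply Subtype.ext
    show nu * (nu * (g : Equiv.Perm ℤ) * nu) * nu = g
    calc nu * (nu * (g : Equiv.Perm ℤ) * nu) * nu = (nu * nu) * g * (nu * nu) := by group
      _ = g := by rw [nu_mul_nu]; group
  have hdich : ∀ b : MulAut CT, b ∈ Inn ∨ b * α ∈ Inn := by
    intro b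
    obtain ⟨h, hh, h1 | h1⟩ := main_auto b
    · left
      refine ⟨⟨h, hh⟩, ?_⟩
      ext g : 1
      apply Subtype.ext
      rw [h1 g]
      simp [MulAut.conj_apply]
    · right
      refine ⟨⟨h, hh⟩, ?_⟩
      ext g : 1
      apply Subtype.ext
      have h2 : ((b * α) g : CT) = b (α g) := rfl
      rw [h2, h1 (α g), hα, nu_inv]
      have h3 : ((MulAut.conj (⟨h, hh⟩ : CT) g : CT) : Equiv.Perm ℤ) = h * g * h⁻¹ := by
        simp [MulAut.conj_apply]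
      rw [h3]
      calc h * (g : Equiv.Perm ℤ) * h⁻¹ = h * 1 * g * 1 * h⁻¹ := by group
        _ = h * (nu * nu) * g * (nu * nu) * h⁻¹ := by rw [nu_mul_nu]
        _ = h * nu * (nu * (g : Equiv.Perm ℤ) * nu) * nu * h⁻¹ := by group
  have hidx : Inn.index = 2 := by
    rw [Subgroup.index_eq_two_iff]
    refine ⟨α, fun b => ?_⟩
    by_cases hb : b ∈ Inn
    · right
      refine ⟨hb, fun h => hαn ?_⟩
      have : α = b⁻¹ * (b * α) := by group
      rw [this]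
      exact mul_mem (inv_mem hb) h
    · left
      exact ⟨(hdich b).resolve_left hb, hb⟩
  have hcard : Nat.card (MulAut CT ⧸ Inn) = 2 := hidx
  have hcard2 : Nat.card (Multiplicative (ZMod 2)) = 2 := by
    rw [Nat.card_eq_fintype_card]
    rfl
  have : Fact (Nat.Prime 2) := ⟨Nat.prime_two⟩
  let e : (MulAut CT ⧸ Inn) ≃* Multiplicative (ZMod 2) :=
    mulEquivOfPrimeCardEq (p := 2) hcard hcard2
  refine ⟨e, ?_⟩
  have hne : e (QuotientGroup.mk α) ≠ 1 := by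
    intro h
    have h1 : (QuotientGroup.mk α : MulAut CT ⧸ Inn) = 1 := by
      apply e.injective
      rw [h, map_one]
    exact hαn ((QuotientGroup.eq_one_iff α).1 h1)
  exact two_elements _ hne

end Pool.Agent.Results.MP_a5f8b0_al.OutIsC2
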